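import Pool.Agent.Helper54.DI.StmtsA

/-! Transcendence basis and primitive element for a prime ideal. -/

namespace Pool.Agent.Helper94.DI

open Pool.Agent.Helper54.DI Polynomial

section core

variable {A K L : Type} [CommRing A] [IsDomain A] [Field K] [Algebra A K] [IsFractionRing A K]

/-- clear denominators -/
theorem clr (p : K[X]) : ∃ b : A, b ≠ 0 ∧ ∃ q : A[X], q.map (algebraMap A K) =
    C (algebraMap A K b) * p := by
  obtain ⟨b, hb0, hb⟩ := IsLocalization.integerNormalization_spec (nonZeroDivisors A) p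
  refine ⟨b, nonZeroDivisors.ne_zero hb0, _, hb.trans ?_⟩
  rw [Algebra.smul_def, IsScalarTower.algebraMap_apply A K K[X]]
  rfl

/-- common denominators -/
theorem clrs {n : ℕ} (p : Fin n → K[X]) : ∃ b : A, b ≠ 0 ∧ ∃ q : Fin n → A[X],
    ∀ i, (q i).map (algebraMap A K) = C (algebraMap A K b) * p i := by
  choose b hb q hq using fun i => clr (A := A) (p i)
  refine ⟨∏ i, b i, Finset.prod_ne_zero_iff.2 fun i _ => hb i,
    fun i => C (∏ j ∈ Finset.univ.erase i, b j) * q i, fun i => ?_⟩
  rw [Polynomial.map_mul, hq i, Polynomial.map_C, ← mul_assoc, ← C_mul, ← map_mul,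
    Finset.prod_erase_mul _ _ (Finset.mem_univ i)]

/-- clear denominators in several variables -/
theorem clrm {d : ℕ} (p : MvPolynomial (Fin d) K) : ∃ b : A, b ≠ 0 ∧
    ∃ q : MvPolynomial (Fin d) A, q.map (algebraMap A K) =
    MvPolynomial.C (algebraMap A K b) * p := by
  induction p using MvPolynomial.induction_on with
  | C a =>
    obtain ⟨x, y, hy, rfl⟩ := IsFractionRing.div_surjective (A := A) a
    have hy0 : y ≠ 0 := nonZeroDivisors.ne_zero hy
    refine ⟨y, hy0, MvPolynomial.C x, ?_⟩
    rw [MvPolynomial.map_C, ← MvPolynomial.C_mul]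
    congr 1
    have : algebraMap A K y ≠ 0 := by
      simpa using (FaithfulSMul.algebraMap_injective A K).ne hy0
    field_simp
  | add p q hp hq =>
    obtain ⟨b, hb, p', hp'⟩ := hp
    obtain ⟨c, hc, q', hq'⟩ := hq
    refine ⟨b * c, mul_ne_zero hb hc, MvPolynomial.C c * p' + MvPolynomial.C b * q', ?_⟩
    rw [map_add, map_mul, map_mul, hp', hq', MvPolynomial.map_C, MvPolynomial.map_C, map_mul,
      map_mul]
    ring
  | mul_X p i hp =>
    obtain ⟨b, hb, p', hp'⟩ := hp
    refine ⟨b, hb, p' * MvPolynomial.X i, ?_⟩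
    rw [map_mul, hp', MvPolynomial.map_X]
    ring

variable [Field L] [CharZero K] [Algebra A L] [Algebra K L] [IsScalarTower A K L]

theorem core1 {d : ℕ} (t : L) (ht : IsIntegral K t) (x : Fin d → L)
    (hx : ∀ l, x l ∈ Algebra.adjoin K {t}) :
    ∃ (m : A[X]) (r : Fin d → A[X]) (δ : A), δ ≠ 0 ∧ aeval t m = 0 ∧
      aeval t (derivative m) ≠ 0 ∧ (∀ l, algebraMap A L δ * x l = aeval t (r l)) ∧
      (∀ q : A[X], aeval t q = 0 → ∃ (s : A) (q' : A[X]), s ≠ 0 ∧ C s * q = m * q') ∧
      (∀ q : A[X], aeval t q ≠ 0 → ∃ (s : A) (α β : A[X]), s ≠ 0 ∧ α * m + β * q = C s) := by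
  have hAK : Function.Injective (algebraMap A K) := FaithfulSMul.algebraMap_injective A K
  have hKL : Function.Injective (algebraMap K L) := (algebraMap K L).injective
  have hev : ∀ q : A[X], aeval t q = aeval t (q.map (algebraMap A K)) := fun q => by
    rw [aeval_map_algebraMap]
  have hCne : ∀ b : A, b ≠ 0 → algebraMap K L (algebraMap A K b) ≠ 0 := fun b hb h =>
    hb (hAK ((hKL (h.trans (map_zero _).symm)).trans (map_zero _).symm))
  obtain ⟨b, hb, m, hm⟩ := clr (A := A) (minpoly K t)
  have hx' : ∀ l, ∃ q : K[X], aeval t q = x l := fun l => by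
    have := hx l
    rw [Algebra.adjoin_singleton_eq_range_aeval] at this
    exact this
  choose g hg using hx'
  obtain ⟨δ, hδ, r, hr⟩ := clrs (A := A) g
  have hmap : Function.Injective (Polynomial.map (algebraMap A K)) :=
    Polynomial.map_injective _ hAK
  refine ⟨m, r, δ, hδ, ?_, ?_, fun l => ?_, fun q hq => ?_, fun q hq => ?_⟩
  · rw [hev, hm, map_mul, minpoly.aeval, mul_zero]
  · rw [hev, ← derivative_map, hm, derivative_C_mul, map_mul, aeval_C]
    refine mul_ne_zero (hCne b hb) ?_
    exact (minpoly.irreducible ht).separable.aeval_derivative_ne_zero (minpoly.aeval K t)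
  · rw [hev, hr l, map_mul, aeval_C, hg l, ← IsScalarTower.algebraMap_apply]
  · rw [hev] at hq
    obtain ⟨g, hg⟩ := minpoly.dvd K t hq
    obtain ⟨c, hc, g', hg'⟩ := clr (A := A) g
    refine ⟨b * c, g', mul_ne_zero hb hc, hmap ?_⟩
    rw [Polynomial.map_mul, Polynomial.map_mul, hm, hg', hg, Polynomial.map_C, map_mul, C_mul]
    ring
  · rw [hev] at hq
    have hnd : ¬ minpoly K t ∣ q.map (algebraMap A K) := fun h => hq (by
      obtain ⟨g, hg⟩ := h
      rw [hg, map_mul, minpoly.aeval, zero_mul])
    obtain ⟨u, v, huv⟩ := ((minpoly.irreducible ht).coprime_iff_not_dvd).2 hnd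
    obtain ⟨c, hc, w, hw⟩ := clrs (A := A) ![u, v]
    have h0 := hw 0
    have h1 := hw 1
    simp only [Matrix.cons_val_zero, Matrix.cons_val_one] at h0 h1
    refine ⟨b * c, w 0, C b * w 1, mul_ne_zero hb hc, hmap ?_⟩
    rw [Polynomial.map_add, Polynomial.map_mul, Polynomial.map_mul, Polynomial.map_mul, hm, h0,
      h1, Polynomial.map_C, Polynomial.map_C, map_mul, C_mul]
    linear_combination (C (algebraMap A K b) * C (algebraMap A K c)) * huv

theorem core2 {d : ℕ} (x : Fin d → L) (hx : ∀ l, IsIntegral K (x l)) :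
    ∃ p : MvPolynomial (Fin d) A, IsIntegral K (MvPolynomial.aeval x p) ∧
      ∀ l, x l ∈ Algebra.adjoin K {MvPolynomial.aeval x p} := by
  have hAK : Function.Injective (algebraMap A K) := FaithfulSMul.algebraMap_injective A K
  have hfd : FiniteDimensional K (IntermediateField.adjoin K (Set.range x)) :=
    IntermediateField.finiteDimensional_adjoin (by rintro _ ⟨l, rfl⟩; exact hx l)
  obtain ⟨α, hα⟩ := Field.exists_primitive_element K (IntermediateField.adjoin K (Set.range x))
  have hα1 : (α : L) ∈ Algebra.adjoin K (Set.range x) := by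
    rw [← IntermediateField.adjoin_toSubalgebra_of_isAlgebraic
      (by rintro _ ⟨l, rfl⟩; exact (hx l).isAlgebraic)]
    exact α.2
  rw [Algebra.adjoin_range_eq_range_aeval] at hα1
  obtain ⟨p0, hp0⟩ := hα1
  obtain ⟨b, hb, p, hp⟩ := clrm (A := A) p0
  have hpt : MvPolynomial.aeval x p = algebraMap K L (algebraMap A K b) * (α : L) := by
    have : MvPolynomial.aeval x p = MvPolynomial.aeval x (p.map (algebraMap A K)) := by
      rw [MvPolynomial.aeval_map_algebraMap]
    rw [this, hp, map_mul, MvPolynomial.aeval_C]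
    congr 1
  have hint : ∀ y : IntermediateField.adjoin K (Set.range x), IsIntegral K y := fun y =>
    Algebra.IsIntegral.isIntegral y
  have hαi : IsIntegral K (α : L) := by
    have := (hint α).map (IntermediateField.adjoin K (Set.range x)).val
    exact this
  have hbK : algebraMap A K b ≠ 0 := fun h => hb (hAK (h.trans (map_zero _).symm))
  refine ⟨p, ?_, fun l => ?_⟩
  · rw [hpt]
    exact isIntegral_algebraMap.mul hαi
  · have hxl : x l ∈ IntermediateField.adjoin K (Set.range x) :=
      IntermediateField.subset_adjoin K _ ⟨l, rfl⟩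
    have h1 : (⟨x l, hxl⟩ : IntermediateField.adjoin K (Set.range x)) ∈
        Algebra.adjoin K {α} := by
      rw [← IntermediateField.adjoin_simple_toSubalgebra_of_isAlgebraic (hint α).isAlgebraic, hα]
      trivial
    rw [Algebra.adjoin_singleton_eq_range_aeval] at h1
    obtain ⟨q, hq⟩ := h1
    have h2 : aeval (α : L) q = x l := by
      have h3 := congrArg (IntermediateField.adjoin K (Set.range x)).val hq
      change (IntermediateField.adjoin K (Set.range x)).val (aeval α q) = x l at h3
      rw [← h3, ← Polynomial.aeval_algHom_apply]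
      rfl
    have h4 : (α : L) ∈ Algebra.adjoin K {MvPolynomial.aeval x p} := by
      have h5 : (α : L) = algebraMap K L (algebraMap A K b)⁻¹ * MvPolynomial.aeval x p := by
        rw [hpt, ← mul_assoc, ← map_mul, inv_mul_cancel₀ hbK, map_one, one_mul]
      rw [h5]
      exact Subalgebra.mul_mem _ (Subalgebra.algebraMap_mem _ _)
        (Algebra.subset_adjoin (Set.mem_singleton _))
    rw [← h2]
    exact Algebra.adjoin_le (Set.singleton_subset_iff.2 h4)
      (Polynomial.aeval_mem_adjoin_singleton K (α : L))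

end core

/-- transcendence basis among the coordinates -/
theorem tb {F R : Type} [Field F] [CommRing R] [IsDomain R] [Algebra F R] {d : ℕ}
    (x : Fin d → R) : ∃ J : Finset (Fin d), AlgebraicIndependent F (fun j : J => x j) ∧
      ∀ l, IsAlgebraic (Algebra.adjoin F (Set.range (fun j : J => x j))) (x l) := by
  classical
  obtain ⟨J, hJ, hmax⟩ : ∃ J : Finset (Fin d), AlgebraicIndepOn F x (J : Set (Fin d)) ∧
      ∀ J' : Finset (Fin d), AlgebraicIndepOn F x (J' : Set (Fin d)) → J'.card ≤ J.card := by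
    have hne : (Finset.univ.filter (fun J : Finset (Fin d) =>
        AlgebraicIndepOn F x (J : Set (Fin d)))).Nonempty := by
      refine ⟨∅, ?_⟩
      simp only [Finset.mem_filter, Finset.mem_univ, true_and, Finset.coe_empty]
      unfold AlgebraicIndepOn
      rw [algebraicIndependent_empty_type_iff]
      exact (algebraMap F R).injective
    obtain ⟨J, hJ, h⟩ := Finset.exists_max_image _ Finset.card hne
    refine ⟨J, (Finset.mem_filter.1 hJ).2, fun J' hJ' => h J' ?_⟩
    simp [hJ']
  have himg : x '' (J : Set (Fin d)) = Set.range (fun j : J => x j) := by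
    ext y
    constructor
    · rintro ⟨j, hj, rfl⟩
      exact ⟨⟨j, hj⟩, rfl⟩
    · rintro ⟨j, rfl⟩
      exact ⟨j, j.2, rfl⟩
  refine ⟨J, hJ, fun l => ?_⟩
  rw [← himg]
  by_cases hl : l ∈ J
  · exact isAlgebraic_algebraMap
      (⟨x l, Algebra.subset_adjoin ⟨l, hl, rfl⟩⟩ : Algebra.adjoin F (x '' (J : Set (Fin d))))
  · by_contra hc
    have h1 : AlgebraicIndepOn F x (insert l (J : Set (Fin d))) :=
      AlgebraicIndepOn.insert hJ hc
    rw [← Finset.coe_insert] at h1
    have := hmax _ h1
    rw [Finset.card_insert_of_notMem hl] at this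
    omega

theorem z2a_aux {d : ℕ} {P : Ideal (MvPolynomial (Fin d) KK)} {L : Type} [Field L]
    [Algebra KK L] (g : MvPolynomial (Fin d) KK →ₐ[KK] L) (hker : ∀ u, g u = 0 ↔ u ∈ P) :
    ∃ J : Finset (Fin d), Nonempty (PrimData P J) := by
  classical
  obtain ⟨y, hy⟩ : ∃ y : Fin d → L, y = fun l => g (MvPolynomial.X l) := ⟨_, rfl⟩
  obtain ⟨J, hJ, halg⟩ := tb (F := KK) y
  obtain ⟨ren, hrend⟩ : ∃ ren : MvPolynomial J KK →ₐ[KK] MvPolynomial (Fin d) KK,
      ren = MvPolynomial.rename (fun j : J => (j : Fin d)) := ⟨_, rfl⟩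
  have hren : ∀ s : MvPolynomial J KK, g (ren s) = MvPolynomial.aeval (fun j : J => y j) s :=
    fun s => by
    have h1 : g.comp ren = MvPolynomial.aeval (fun j : J => y j) := by
      apply MvPolynomial.algHom_ext
      intro j
      rw [AlgHom.comp_apply, hrend, MvPolynomial.rename_X, MvPolynomial.aeval_X, hy]
    rw [← h1]
    rfl
  have hinj : Function.Injective (g.comp ren) := by
    intro s s' h
    apply hJ
    rw [AlgHom.comp_apply, AlgHom.comp_apply, hren, hren] at h
    exact h
  let algAL : Algebra (MvPolynomial J KK) L := (g.comp ren).toRingHom.toAlgebra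
  have hAL : ∀ s, algebraMap (MvPolynomial J KK) L s = g (ren s) := fun s => rfl
  have hfs : FaithfulSMul (MvPolynomial J KK) L :=
    (faithfulSMul_iff_algebraMap_injective _ _).2 hinj
  let algKL : Algebra (FractionRing (MvPolynomial J KK)) L :=
    FractionRing.liftAlgebra (MvPolynomial J KK) L
  have hst : IsScalarTower (MvPolynomial J KK) (FractionRing (MvPolynomial J KK)) L :=
    FractionRing.isScalarTower_liftAlgebra _ _
  have hcz : CharZero (FractionRing (MvPolynomial J KK)) :=
    charZero_of_injective_algebraMap (FaithfulSMul.algebraMap_injective (MvPolynomial J KK)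
      (FractionRing (MvPolynomial J KK)))
  have hyint : ∀ l, IsIntegral (FractionRing (MvPolynomial J KK)) (y l) := fun l => by
    obtain ⟨p, hp0, hp⟩ := halg l
    obtain ⟨e, he⟩ : ∃ e : MvPolynomial J KK ≃ₐ[KK]
        Algebra.adjoin KK (Set.range (fun j : J => y j)), e = hJ.aevalEquiv := ⟨_, rfl⟩
    have he1 : ∀ s, ((e s : _) : L) = MvPolynomial.aeval (fun j : J => y j) s := fun s => by
      rw [he]
      rfl
    have hA : IsAlgebraic (MvPolynomial J KK) (y l) := by
      refine ⟨p.map (e.symm : _ →+* MvPolynomial J KK), ?_, ?_⟩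
      · intro h
        exact hp0 ((Polynomial.map_eq_zero_iff e.symm.injective).1 h)
      · rw [aeval_def] at hp
        rw [aeval_def, Polynomial.eval₂_map]
        have h3 : (algebraMap (MvPolynomial J KK) L).comp (e.symm : _ →+* MvPolynomial J KK) =
            algebraMap (Algebra.adjoin KK (Set.range (fun j : J => y j))) L := by
          ext s
          obtain ⟨s', rfl⟩ := e.surjective s
          rw [RingHom.comp_apply]
          have h4 : (e.symm : _ →+* MvPolynomial J KK) (e s') = s' := e.symm_apply_apply s'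
          rw [h4, hAL, hren, ← he1]
          rfl
        rw [h3]
        exact hp
    exact ((IsFractionRing.isAlgebraic_iff (MvPolynomial J KK)
      (FractionRing (MvPolynomial J KK)) L).1 hA).isIntegral
  obtain ⟨p, hpi, hpx⟩ := core2 (A := MvPolynomial J KK)
    (K := FractionRing (MvPolynomial J KK)) y hyint
  obtain ⟨m, r, δ, hδ, hm, hm', hr, hdiv, hbez⟩ := core1 (A := MvPolynomial J KK)
    (K := FractionRing (MvPolynomial J KK)) _ hpi y hpx
  obtain ⟨t, ht⟩ : ∃ t : MvPolynomial (Fin d) KK,
    t = p.eval₂ ren.toRingHom MvPolynomial.X := ⟨_, rfl⟩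
  have hgt : g t = MvPolynomial.aeval y p := by
    rw [ht]
    refine (MvPolynomial.eval₂_comp_left g.toRingHom ren.toRingHom MvPolynomial.X p).trans ?_
    rw [MvPolynomial.aeval_def, hy]
    rfl
  rw [← hgt] at hm hm' hr hdiv hbez
  have hps : ∀ q : (MvPolynomial J KK)[X], g (psub J q t) = aeval (g t) q := fun q => by
    rw [psub, ← hrend]
    exact Polynomial.hom_eval₂ q ren.toRingHom g.toRingHom t
  have hps0 : ∀ q : (MvPolynomial J KK)[X], psub J q t ∈ P ↔ aeval (g t) q = 0 := fun q => by
    rw [← hker, hps]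
  refine ⟨J, ⟨⟨t, m, r, δ, fun s hs h => ?_, hδ, (hps0 m).2 hm,
    fun h => hm' ((hps0 _).1 h), fun l => ?_, fun q hq => ?_, fun q hq => ?_⟩⟩⟩
  · rw [← hrend, ← hker] at h
    exact hs (hinj (h.trans (map_zero (g.comp ren)).symm))
  · rw [← hker, map_sub, hps, ← hr l, map_mul, ← hrend, hAL, hy]
    exact sub_self _
  · exact hdiv q ((hps0 q).1 hq)
  · exact hbez q (fun h => hq ((hps0 q).2 h))

/-- a prime ideal is the kernel of a homomorphism to a field -/
theorem quo {F R : Type} [Field F] [CommRing R] [Algebra F R] (P : Ideal R) (hP : P.IsPrime) :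
    ∃ (L : Type) (_ : Field L) (_ : Algebra F L) (g : R →ₐ[F] L), ∀ u, g u = 0 ↔ u ∈ P := by
  refine ⟨FractionRing (R ⧸ P), inferInstance, inferInstance,
    (IsScalarTower.toAlgHom F (R ⧸ P) (FractionRing (R ⧸ P))).comp (Ideal.Quotient.mkₐ F P),
    fun u => ?_⟩
  rw [← Ideal.Quotient.eq_zero_iff_mem]
  have hRL : Function.Injective (algebraMap (R ⧸ P) (FractionRing (R ⧸ P))) :=
    IsFractionRing.injective _ _
  constructor
  · intro h
    exact hRL (Eq.trans h (map_zero _).symm)
  · intro h
    change algebraMap (R ⧸ P) (FractionRing (R ⧸ P)) (Ideal.Quotient.mk P u) = 0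
    rw [h, map_zero]

theorem st_Z2A : ST_Z2A := by
  intro d P hP
  obtain ⟨L, i1, i2, g, hg⟩ := quo (F := KK) P hP
  exact z2a_aux g hg

end Pool.Agent.Helper94.DI
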